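import Mathlib
import Pool.Agent.Helper73.SM.Goals

/-!
# Packet RED (MP_c307ca_nt): reduced basis for the sup norm
-/

set_option autoImplicit false

namespace Pool.Agent.Helper70.SM

open Finset Pool.Agent.Helper73.SM

lemma nm_nonneg (v : ℝ × ℝ) : 0 ≤ nm v := le_trans (abs_nonneg v.1) (le_max_left _ _)

lemma abs_dr_le (u v : ℝ × ℝ) : |dr u v| ≤ 2 * nm u * nm v := by
  unfold dr
  have h1 : |u.1| ≤ nm u := le_max_left _ _
  have h2 : |u.2| ≤ nm u := le_max_right _ _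
  have h3 : |v.1| ≤ nm v := le_max_left _ _
  have h4 : |v.2| ≤ nm v := le_max_right _ _
  have h5 : |u.1 * v.2 - u.2 * v.1| ≤ |u.1 * v.2| + |u.2 * v.1| := abs_sub _ _
  rw [abs_mul, abs_mul] at h5
  have h6 : |u.1| * |v.2| ≤ nm u * nm v :=
    mul_le_mul h1 h4 (abs_nonneg _) (nm_nonneg _)
  have h7 : |u.2| * |v.1| ≤ nm u * nm v :=
    mul_le_mul h2 h3 (abs_nonneg _) (nm_nonneg _)
  linarith

lemma dr_cb_right (a b : ℤ) (u v : ℝ × ℝ) : dr (cb a b u v) v = (a : ℝ) * dr u v := by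
  unfold dr cb; ring

lemma dr_cb_left (a b : ℤ) (u v : ℝ × ℝ) : dr u (cb a b u v) = (b : ℝ) * dr u v := by
  unfold dr cb; ring

lemma dr_cb_cb (a b c d : ℤ) (u v : ℝ × ℝ) :
    dr (cb a b u v) (cb c d u v) = ((a * d - b * c : ℤ) : ℝ) * dr u v := by
  unfold dr cb; push_cast; ring

lemma nm_pos (u v : ℝ × ℝ) (h : dr u v ≠ 0) (a b : ℤ) (hab : (a, b) ≠ ((0 : ℤ), (0 : ℤ))) :
    0 < nm (cb a b u v) := by
  rcases (nm_nonneg (cb a b u v)).lt_or_eq with h1 | h1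
  · exact h1
  · exfalso
    have h2 := abs_dr_le (cb a b u v) v
    have h3 := abs_dr_le u (cb a b u v)
    rw [← h1, dr_cb_right] at h2
    rw [← h1, dr_cb_left] at h3
    have h4 : (a : ℝ) * dr u v = 0 := by
      have : |(a : ℝ) * dr u v| ≤ 0 := by linarith
      exact abs_eq_zero.mp (le_antisymm this (abs_nonneg _))
    have h5 : (b : ℝ) * dr u v = 0 := by
      have : |(b : ℝ) * dr u v| ≤ 0 := by linarith
      exact abs_eq_zero.mp (le_antisymm this (abs_nonneg _))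
    have h6 : (a : ℝ) = 0 := (mul_eq_zero.mp h4).resolve_right h
    have h7 : (b : ℝ) = 0 := (mul_eq_zero.mp h5).resolve_right h
    apply hab
    have h8 : a = 0 := by exact_mod_cast h6
    have h9 : b = 0 := by exact_mod_cast h7
    rw [h8, h9]

lemma nm_cb_mul (k a b : ℤ) (u v : ℝ × ℝ) :
    nm (cb (k * a) (k * b) u v) = |(k : ℝ)| * nm (cb a b u v) := by
  unfold nm cb
  rw [mul_max_of_nonneg _ _ (abs_nonneg _), ← abs_mul, ← abs_mul]
  congr 2
  · push_cast; ring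
  · push_cast; ring

/-- the final estimate -/
lemma fin_est (x y z w D : ℝ) (hD : |x * w - y * z| = D) (hxy : |y| ≤ |x|)
    (hz : |z| ≤ |x| / 2) (hx : 0 < |x|) (hmin : |x| ≤ max |z| |w|) :
    |x| * max |z| |w| ≤ 2 * D := by
  have h1 : max |z| |w| = |w| := by
    apply max_eq_right
    rcases le_max_iff.mp hmin with h | h
    · linarith
    · linarith
  rw [h1] at hmin ⊢
  have h2 : |x * w| - |y * z| ≤ |x * w - y * z| := abs_sub_abs_le_abs_sub _ _
  rw [abs_mul, abs_mul] at h2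
  have h3 : |y| * |z| ≤ |x| * (|x| / 2) := mul_le_mul hxy hz (abs_nonneg _) (abs_nonneg _)
  have h4 : |x| * |x| ≤ |x| * |w| := mul_le_mul_of_nonneg_left hmin (abs_nonneg _)
  linarith

lemma round_est (x z : ℝ) (hx : x ≠ 0) : ∃ t : ℤ, |z + (t : ℝ) * x| ≤ |x| / 2 := by
  refine ⟨-round (z / x), ?_⟩
  have h1 : z + ((-round (z / x) : ℤ) : ℝ) * x = x * (z / x - round (z / x)) := by
    push_cast
    field_simp
    ring
  rw [h1, abs_mul]
  have h2 := abs_sub_round (z / x)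
  have h3 := mul_le_mul_of_nonneg_left h2 (abs_nonneg x)
  linarith

lemma fin_set (u v : ℝ × ℝ) (h : dr u v ≠ 0) (B : ℝ) :
    ({p : ℤ × ℤ | nm (cb p.1 p.2 u v) ≤ B}).Finite := by
  have hD : 0 < |dr u v| := abs_pos.mpr h
  obtain ⟨N, hN⟩ := exists_nat_ge (2 * |B| * max (nm u) (nm v) / |dr u v|)
  apply (Set.finite_Icc ((-(N : ℤ), -(N : ℤ)) : ℤ × ℤ) ((N : ℤ), (N : ℤ))).subset
  intro p hp
  simp only [Set.mem_ofPred_eq] at hp
  have hB : nm (cb p.1 p.2 u v) ≤ |B| := hp.trans (le_abs_self B)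
  have h1 := abs_dr_le (cb p.1 p.2 u v) v
  have h2 := abs_dr_le u (cb p.1 p.2 u v)
  rw [dr_cb_right, abs_mul] at h1
  rw [dr_cb_left, abs_mul] at h2
  have hm1 : nm u ≤ max (nm u) (nm v) := le_max_left _ _
  have hm2 : nm v ≤ max (nm u) (nm v) := le_max_right _ _
  have h3 : 2 * nm (cb p.1 p.2 u v) * nm v ≤ 2 * |B| * max (nm u) (nm v) := by
    apply mul_le_mul _ hm2 (nm_nonneg _) (by positivity)
    linarith
  have h4 : 2 * nm u * nm (cb p.1 p.2 u v) ≤ 2 * |B| * max (nm u) (nm v) := by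
    have := mul_le_mul hm1 hB (nm_nonneg _) ((nm_nonneg u).trans hm1)
    linarith
  have h5 : |(p.1 : ℝ)| ≤ N := by
    refine le_trans ?_ hN
    rw [le_div_iff₀ hD]
    linarith
  have h6 : |(p.2 : ℝ)| ≤ N := by
    refine le_trans ?_ hN
    rw [le_div_iff₀ hD]
    linarith
  have h7 := abs_le.mp h5
  have h8 := abs_le.mp h6
  simp only [Set.mem_Icc, Prod.le_def]
  refine ⟨⟨?_, ?_⟩, ⟨?_, ?_⟩⟩
  · exact_mod_cast h7.1
  · exact_mod_cast h8.1
  · exact_mod_cast h7.2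
  · exact_mod_cast h8.2

/-- PACKET RED -/
theorem goalRED : Pool.Agent.Helper73.SM.StmtRED := by
  intro u v h
  -- minimal pair
  have hne : ({p : ℤ × ℤ | p ≠ (0, 0) ∧ nm (cb p.1 p.2 u v) ≤ nm (cb 1 0 u v)}).Nonempty :=
    ⟨(1, 0), by simp, le_refl _⟩
  have hfin : ({p : ℤ × ℤ | p ≠ (0, 0) ∧ nm (cb p.1 p.2 u v) ≤ nm (cb 1 0 u v)}).Finite :=
    (fin_set u v h (nm (cb 1 0 u v))).subset (fun p hp => hp.2)
  obtain ⟨p, hp, hmin⟩ := Set.exists_min_image _ (fun p : ℤ × ℤ => nm (cb p.1 p.2 u v)) hfin hne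
  obtain ⟨a, b⟩ := p
  obtain ⟨hp0, hp1⟩ := hp
  have hmin' : ∀ c d : ℤ, (c, d) ≠ ((0 : ℤ), (0 : ℤ)) → nm (cb a b u v) ≤ nm (cb c d u v) := by
    intro c d hcd
    rcases le_or_gt (nm (cb c d u v)) (nm (cb 1 0 u v)) with h1 | h1
    · exact hmin (c, d) ⟨hcd, h1⟩
    · exact hp1.trans h1.le
  have hpos := nm_pos u v h a b hp0
  -- coprimality
  have hg : Int.gcd a b = 1 := by
    by_contra hk
    have hk0 : 0 < Int.gcd a b := by
      rw [Int.gcd_pos_iff]
      by_contra h0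
      push Not at h0
      apply hp0
      rw [h0.1, h0.2]
    obtain ⟨a', ha'⟩ : ((Int.gcd a b : ℕ) : ℤ) ∣ a := Int.gcd_dvd_left a b
    obtain ⟨b', hb'⟩ : ((Int.gcd a b : ℕ) : ℤ) ∣ b := Int.gcd_dvd_right a b
    set k := Int.gcd a b with hkdef
    have hab' : (a', b') ≠ ((0 : ℤ), (0 : ℤ)) := by
      intro h0
      rw [Prod.mk.injEq] at h0
      apply hp0
      rw [ha', hb', h0.1, h0.2]
      simp
    have h1 := hmin' a' b' hab'
    have h2 := nm_pos u v h a' b' hab'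
    have h3 : nm (cb a b u v) = |((k : ℤ) : ℝ)| * nm (cb a' b' u v) := by
      rw [← nm_cb_mul, ← ha', ← hb']
    have h4 : (2 : ℝ) ≤ |((k : ℤ) : ℝ)| := by
      have : 2 ≤ k := by omega
      have h5 : (2 : ℝ) ≤ (k : ℝ) := by exact_mod_cast this
      calc (2 : ℝ) ≤ (k : ℝ) := h5
        _ = ((k : ℤ) : ℝ) := by push_cast; ring
        _ ≤ |((k : ℤ) : ℝ)| := le_abs_self _
    rw [h3] at h1
    nlinarith
  have hcop : IsCoprime a b := Int.isCoprime_iff_gcd_eq_one.mpr hg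
  obtain ⟨x, y, hxy⟩ := hcop
  -- `x * a + y * b = 1`; `d = x`, `c = -y`
  have key : ∀ t : ℤ, a * (x + t * b) - b * (-y + t * a) = 1 := by
    intro t; linarith [hxy, mul_comm x a, mul_comm y b]
  have hnz : ∀ t : ℤ, (-y + t * a, x + t * b) ≠ ((0 : ℤ), (0 : ℤ)) := by
    intro t h0
    rw [Prod.mk.injEq] at h0
    have := key t
    rw [h0.1, h0.2] at this
    simp at this
  have hdr : ∀ t : ℤ, dr (cb a b u v) (cb (-y + t * a) (x + t * b) u v) = dr u v := by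
    intro t
    rw [dr_cb_cb, key t]
    simp
  have hc1 : ∀ t : ℤ, (cb (-y + t * a) (x + t * b) u v).1
      = (cb (-y) x u v).1 + (t : ℝ) * (cb a b u v).1 := by
    intro t; unfold cb; push_cast; ring
  have hc2 : ∀ t : ℤ, (cb (-y + t * a) (x + t * b) u v).2
      = (cb (-y) x u v).2 + (t : ℝ) * (cb a b u v).2 := by
    intro t; unfold cb; push_cast; ring
  rcases le_total |(cb a b u v).2| |(cb a b u v).1| with hcase | hcase
  · have hn : nm (cb a b u v) = |(cb a b u v).1| := by unfold nm; exact max_eq_left hcase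
    rw [hn] at hpos
    obtain ⟨t, ht⟩ := round_est (cb a b u v).1 (cb (-y) x u v).1 (abs_pos.mp hpos)
    rw [← hc1 t] at ht
    refine ⟨a, b, -y + t * a, x + t * b, key t, hmin' _ _ (hnz t), ?_⟩
    have h1 := hmin' _ _ (hnz t)
    rw [hn] at h1 ⊢
    have h2 := hdr t
    unfold nm at h1 ⊢
    refine fin_est _ _ _ _ _ ?_ hcase ht hpos h1
    rw [← h2]; rfl
  · have hn : nm (cb a b u v) = |(cb a b u v).2| := by unfold nm; exact max_eq_right hcase
    rw [hn] at hpos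
    obtain ⟨t, ht⟩ := round_est (cb a b u v).2 (cb (-y) x u v).2 (abs_pos.mp hpos)
    rw [← hc2 t] at ht
    refine ⟨a, b, -y + t * a, x + t * b, key t, hmin' _ _ (hnz t), ?_⟩
    have h1 := hmin' _ _ (hnz t)
    rw [hn] at h1 ⊢
    have h2 := hdr t
    unfold nm at h1 ⊢
    rw [max_comm] at h1 ⊢
    refine fin_est _ _ _ _ _ ?_ hcase ht hpos h1
    rw [← h2]
    unfold dr
    rw [← abs_neg]
    congr 1
    ring

end Pool.Agent.Helper70.SM
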